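import Pool.Agent.Y735.R3.FinalK
import Pool.Agent.Y735.Irred
import Pool.Agent.Y735.V.Vojta

/-!
MP_44a246_nt, Q1: algebraic points of bounded degree on generic hypersurfaces and complete
intersections over function fields.

Let `k` be an algebraically closed field of characteristic zero, and `K` a function field of one
variable over `k`. Let `K0` be a subfield of `K` that is finitely generated over a subfield `k0` of
`k`. Let `V` be a closed subset of projective space of dimension `n`, defined over `K0`, of dimension
at most `m` (for instance all of projective space, with `m = n`). For `a` in a finite set `A`, let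
`F_a` be a form over `K` of degree `d_a` such that the coefficients of all the `F_a` together are
algebraically independent over `K0`. (For `k` uncountable and `k0` countable, this holds for very
general forms over `k`, and for very general families of forms, which are not isotrivial.) Let `X` be
the part of `V` where all `F_a` vanish. Let `r` be a natural number such that
`2 m + 1 + r ≤ ∑ (d_a + 1)`; for a single hypersurface of degree `d` in projective space, this means
`r ≤ d - 2 n`. Then:

* the heights of all points of `X` over all extensions of `K` of degree at most `r` are bounded;
* each hypersurface `F_a = 0` is smooth and, for `n ≥ 2`, geometrically irreducible.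

So there is a constant `B` such that all points of `X` of degree at most `r` over `K` have height at
most `B`. As the height associated with any divisor is bounded on a set of points of bounded height,
and as the counting function and the logarithmic discriminant are nonnegative, the conjecture holds
(for this `r`) for all smooth projective varieties contained in `X`, or having a finite morphism to
`X`, for all normal crossings divisors `D`, all `S` and all `ε`, with `Z` empty (respectively, with
the constant depending on the variety and the divisor). For `r = 1`, the boundedness is the first step
in the proof of the finiteness of rational points on generic hypersurfaces; for `r ≥ 2` it is new.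

Here `pht k x` is the height of `x` in `L`, minus the sum over all places of `L` of the minimum of the
orders of the coordinates; it is `[L : K]` times the height relative to `K`. `DimLE K0 V m` means that
for each point of `V` over an extension field of `K0`, the ratios of its coordinates generate a field
of transcendence degree at most `m` over `K0`.

The proof. By commuting derivations dual to the coefficients, a point `x` of degree `s ≤ r` gives a
nonzero element `Θ` of its field `L`, whose poles are bounded by the ramification of `L`, and which
vanishes to the order `s` along a hyperplane section. So the traces of `Θ` times a monomial of degree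
`s` in the coordinates have bounded poles. If there are points of unbounded height, then in an
ultrapower this gives linear relations between the conjugates of the point over the algebraically
closed field of the elements that are algebraic over those of bounded height; they imply that the
point lies on a line over this field that is contained in `X`, but there are no such lines.
-/

set_option autoImplicit false

namespace Pool.Agent.Results.MP_44a246_nt.BoundedDegree

open FF MvPolynomial Pool.Agent.W603.LV Pool.Agent.W603.PV
open Pool.Agent.TH145.MG (DimLE)

theorem result {k0 k K0 K : Type} [Field k0] [Field k] [Field K0] [Field K] [IsAlgClosed k]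
    [CharZero k] [Algebra k0 k] [Algebra k K] [Algebra k0 K] [IsScalarTower k0 k K]
    [Algebra k0 K0] [Algebra K0 K] [IsScalarTower k0 K0 K] [IsFF k K]
    (hfg : ∃ S : Finset K0, IntermediateField.adjoin k0 (S : Set K0) = ⊤) {n m r : ℕ}
    -- the degrees of the forms
    {A : Type} [Fintype A] {d : A → ℕ} (hd : 2 * m + 1 + r ≤ ∑ a, (d a + 1))
    -- a closed subset of projective space, of dimension at most `m`
    (V : Set (MvPolynomial (Fin (n + 1)) K0)) (hVh : ∀ f ∈ V, ∃ e, f.IsHomogeneous e)
    (hV : DimLE K0 V m)
    -- forms of degrees `d a` with independent coefficients
    (F : A → MvPolynomial (Fin (n + 1)) K) (hF : ∀ a, (F a).IsHomogeneous (d a))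
    (hgen : AlgebraicIndependent K0
      fun p : (a : A) × {I : Fin (n + 1) →₀ ℕ // I.degree = d a} => (F p.1).coeff p.2.1) :
    -- the heights of the points of degree at most `r` are bounded
    (∃ B : ℤ, ∀ (L : Type) [Field L] [Algebra k L] [Algebra K L] [IsScalarTower k K L]
      [FiniteDimensional K L], Module.finrank K L ≤ r → ∀ x : Fin (n + 1) → L, x ≠ 0 →
      (∀ f ∈ V, aeval x (map (algebraMap K0 K) f) = 0) → (∀ a, aeval x (F a) = 0) →
      pht k x ≤ B) ∧
    -- the hypersurfaces are geometrically irreducible and smooth
    ∀ a, 0 < d a → (2 ≤ n → Irreducible (map (algebraMap K (AlgebraicClosure K)) (F a))) ∧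
      ∀ x : Fin (n + 1) → AlgebraicClosure K, x ≠ 0 → ∃ i, aeval x (pderiv i (F a)) ≠ 0 := by
  classical
  have hK : CharZero K := charZero_of_injective_algebraMap (algebraMap k K).injective
  have hKc : CharZero (AlgebraicClosure K) :=
    charZero_of_injective_algebraMap (algebraMap K (AlgebraicClosure K)).injective
  refine ⟨Pool.Agent.Y735.R3.bounded_K hfg hd V hVh hV hF hgen, fun a ha => ?_⟩
  have hga : AlgebraicIndependent K0
      fun I : {I : Fin (n + 1) →₀ ℕ // I.degree = d a} => (F a).coeff I.1 :=
    hgen.comp (fun I => (⟨a, I⟩ : (a : A) × {I : Fin (n + 1) →₀ ℕ // I.degree = d a}))
      fun _ _ h => eq_of_heq (Sigma.mk.inj h).2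
  refine ⟨fun hn => ?_, fun x hx => ?_⟩
  · obtain ⟨G, hG⟩ : ∃ G, G = map (algebraMap K (AlgebraicClosure K)) (F a) := ⟨_, rfl⟩
    have hGh : G.IsHomogeneous (d a) := hG ▸ (hF a).map _
    have hGgen : AlgebraicIndependent K0 fun I : {I : Fin (n + 1) →₀ ℕ // I.degree = d a} =>
        G.coeff I.1 := by
      have h3 := hga.map' (f := IsScalarTower.toAlgHom K0 K (AlgebraicClosure K))
        (algebraMap K (AlgebraicClosure K)).injective
      have h4 : (fun I : {I : Fin (n + 1) →₀ ℕ // I.degree = d a} => G.coeff I.1) =
          (IsScalarTower.toAlgHom K0 K (AlgebraicClosure K)) ∘ fun I => (F a).coeff I.1 := by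
        funext I
        rw [hG, coeff_map]
        rfl
      rw [h4]
      exact h3
    rw [← hG]
    have hdeg : (Finsupp.single (Fin.last n) (d a)).degree = d a := Finsupp.degree_single _ _
    exact Pool.Agent.Y735.irreducible_gen hn ha hGh ⟨_, hdeg⟩
      (hGgen.ne_zero ⟨_, hdeg⟩) (Pool.Agent.Y735.V.ratio_indep hGgen ⟨_, hdeg⟩)
  · by_contra hcon
    push Not at hcon
    obtain ⟨N, Q, hQ⟩ := Pool.Agent.Y735.V.exists_null' ha (hF a) hga
    apply hx
    funext l
    have h1 := congrArg (aeval x) (hQ l)
    rw [map_pow, aeval_X, map_sum, Finset.sum_eq_zero fun i _ => by
      rw [map_mul, hcon i, mul_zero]] at h1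
    exact eq_zero_of_pow_eq_zero h1

end Pool.Agent.Results.MP_44a246_nt.BoundedDegree
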