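import Mathlib
import Pool.Agent.Y557.OE.Set

/-!
# The truncated Vojta inequality with discriminant term: one exceptional set for all curves over all
number fields, all divisors and all products

Let `K` be a number field, for example `ℚ`, and `a_1, …, a_q` distinct elements of `K`, `q ≥ 3`, for
example `q = 3`. We consider ALL number fields `k` containing `K`, all smooth projective curves
`C_1, …, C_m` over `k`, all finite maps `t_i : C_i → ℙ¹` over `k` which are unramified outside the
fibres over the `a_j` (by Belyi's theorem every curve over every number field has such maps), and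
all reduced effective divisors `D_i` on `C_i` contained in these fibres (every reduced divisor is
contained in them for a suitable `t_i`). Let `N_i` be the degree of `t_i` and let `A_i` be the ring of
the functions on `C_i` with poles only over `∞`: a Dedekind domain, finite over `k[t]`. If `E_{i j}`
is the ideal of the points over `a_j` which are not points of `D_i`, then
`2 + deg (K_{C_i} + D_i) / N_i = q - (∑_j dim (A_i / E_{i j})) / N_i`.

We consider `V = C_1 × … × C_m` with the divisor `D = ∑_i pr_i^* D_i + ∑_{(i, l) ∈ G} Z_{i l}`, where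
`G` is any set of pairs `i < l` and `Z_{i l}` is the divisor `t_i = t_l`. For `m = 1` these are all
curves with all divisors. For `A_i = k[t]`, `D_i = a_1 + … + a_q` and the set `G` of all pairs,
`V \ D` is the space of the configurations of `m` different points of `ℙ¹ \ {a_1, …, a_q}`, which is
`M_{0, m + 3}` for `q = 3`.

The points `P` of `V` (not over `∞`) over a number field `L` containing `k` are the tuples of
homomorphisms `φ_i : A_i → L` over `k`. The tuples `x = (x_1, …, x_m)` of elements of `K`, of all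
heights, are ordered by the largest of the truncated counting functions of the `x_i` with respect to
`[a_1] + … + [a_q]`; there are `X ^ (2 m / q + o(1))` of them for which these are at most `log X`. We
prove that for every `κ > 0` there is a set `E ⊆ K ^ m`, which contains only
`O(X ^ (2 m / q - ν))` of these tuples, such that for all `k`, all `C_i`, `t_i`, `D_i`, `G` and all
finite sets `S` of primes of `k`, with a constant `c` depending on these data, all points `P` of `V`
over all tuples `x` not in `E` and all number fields `L` over which `P` is defined satisfy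
`∑_i (2 + deg (K_{C_i} + D_i) / N_i - κ) h(x_i) + ∑_{(i, l) ∈ G} (h(x_i) + h(x_l))`
`≤ N_S^{(1)}(D, P) + d(L) + c`.
The left hand side is `h_{K_V + D}(P) + (2 - κ) ∑_i h(x_i)`, if the height of a divisor of degree
`d` on `C_i` is replaced by `d h(x_i) / N_i`. The height `h`, the truncated counting function and
the logarithmic discriminant `d(L)` are the absolute ones: those relative to `k` divided by
`[k : ℚ]`, up to the constant `log |disc k| / [k : ℚ]` for the discriminant.
-/

set_option autoImplicit false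

namespace Pool.Agent.Results.MP_44a246_nt.OneExceptionalSet

open Polynomial IsDedekindDomain NumberField

/-- The function `t` on the curve with the ring of functions `A`. -/
noncomputable def coord (k A : Type) [Field k] [CommRing A] [Algebra k[X] A] : A :=
  algebraMap k[X] A X

/-- The absolute logarithmic height of the point `x` of the line. -/
noncomputable def height {K : Type} [Field K] [NumberField K] (x : K) : ℝ :=
  Height.logHeight₁ x / Module.finrank ℚ K

open Classical in
/-- The truncated counting function of `[a_1] + … + [a_q]` at the point `x` of the line over `K`: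
the sum of `log N(v)` over the primes `v` of `K` at which `x` and some `a_j` have the same
reduction. -/
noncomputable def counting {K : Type} [Field K] [NumberField K] {q : ℕ}
    (a : Fin q → K) (x : K) : ℝ :=
  ∑ᶠ v : HeightOneSpectrum (𝓞 K),
    if ∃ j, v.valuation K (x - a j) < max (v.valuation K (a j)) 1 * max (v.valuation K x) 1
    then Real.log (Ideal.absNorm v.asIdeal) else 0

/-- The point `P = (φ_1, …, φ_m)` of `V` over `L` and the divisor `D` meet at the prime `w` of `L`.
Either `P_i` reduces to a point of `D_i` for some `i`, where the part of `D_i` over `a_j` has the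
equations `y_{i j 1} = ⋯ = y_{i j u_{i j}} = 0`: that is, `|t_i(P)|_w ≤ 1` and for some `j` one has
`|t_i(P) - a_j|_w < 1` and `|y_{i j l}(P)|_w < 1` for all `l`. Or `t_i(P)` and `t_l(P)` have the same
reduction in the line for some `(i, l) ∈ G`. -/
def MeetsAt {K k : Type} [Field K] [Field k] {m q : ℕ} {A : Fin m → Type}
    [∀ i, CommRing (A i)] [∀ i, Algebra k (A i)] [∀ i, Algebra k[X] (A i)] (a : Fin q → K)
    (u : Fin m → Fin q → ℕ) (y : ∀ i j, Fin (u i j) → A i) (G : Finset (Fin m × Fin m))
    {L : Type} [Field L] [NumberField L] [Algebra K L] [Algebra k L] (φ : ∀ i, A i →ₐ[k] L)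
    (w : HeightOneSpectrum (𝓞 L)) : Prop :=
  (∃ i, w.valuation L (φ i (coord k (A i))) ≤ 1 ∧
    ∃ j, w.valuation L (φ i (coord k (A i)) - algebraMap K L (a j)) < 1 ∧
      ∀ l, w.valuation L (φ i (y i j l)) < 1) ∨
  ∃ p ∈ G, w.valuation L (φ p.1 (coord k (A p.1)) - φ p.2 (coord k (A p.2))) <
    max (w.valuation L (φ p.1 (coord k (A p.1)))) 1 *
      max (w.valuation L (φ p.2 (coord k (A p.2)))) 1

open Classical in
/-- The (absolute) truncated counting function `N_S^{(1)}(D, P)`: the sum of `log N(w) / [L : ℚ]`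
over the primes `w` of `L`, not above primes in `S`, at which `P` and `D` meet. Every such prime is
counted once. -/
noncomputable def truncated {K k : Type} [Field K] [Field k] [NumberField k] {m q : ℕ}
    {A : Fin m → Type} [∀ i, CommRing (A i)] [∀ i, Algebra k (A i)] [∀ i, Algebra k[X] (A i)]
    (S : Finset (HeightOneSpectrum (𝓞 k))) (a : Fin q → K) (u : Fin m → Fin q → ℕ)
    (y : ∀ i j, Fin (u i j) → A i) (G : Finset (Fin m × Fin m)) {L : Type} [Field L]
    [NumberField L] [Algebra K L] [Algebra k L] (φ : ∀ i, A i →ₐ[k] L) : ℝ :=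
  (∑ᶠ w : HeightOneSpectrum (𝓞 L),
      if (∀ p ∈ S, w.asIdeal.comap (algebraMap (𝓞 k) (𝓞 L)) ≠ p.asIdeal) ∧ MeetsAt a u y G φ w
      then Real.log (Ideal.absNorm w.asIdeal) else 0) / Module.finrank ℚ L

/-- The (absolute) logarithmic discriminant `d(L) = log |disc L| / [L : ℚ]`. -/
noncomputable def logDisc (L : Type) [Field L] [NumberField L] : ℝ :=
  Real.log |(NumberField.discr L : ℝ)| / Module.finrank ℚ L

/-- `q - (∑_j dim (A / E_j)) / N`, where `N` is the rank of `A` over `k[t]`: the number
`2 + deg (K_C + D) / N` for the curve `C`. -/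
noncomputable def degree (k : Type) {A : Type} [Field k] [CommRing A] [Algebra k A]
    [Algebra k[X] A] {q : ℕ} (E : Fin q → Ideal A) : ℝ :=
  q - (∑ j, (Module.finrank k (A ⧸ E j) : ℝ)) / Module.finrank k[X] A

/-- The tuples `(x_1, …, x_m)` of elements of `K`, of whatever height, different from the `a_j`,
for which the truncated counting functions of the `x_i` with respect to `[a_1] + … + [a_q]` are at
most `log X`. -/
def Tuples {K : Type} [Field K] [NumberField K] {q : ℕ} (m : ℕ) (a : Fin q → K) (X : ℝ) :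
    Set (Fin m → K) :=
  {x | ∀ i, (∀ j, x i ≠ a j) ∧ counting a (x i) ≤ Real.log X}

open Classical in
theorem counting_eq {K : Type} [Field K] [NumberField K] {q : ℕ}
    (a : Fin q → K) {x : K} (hx : ∀ j, x ≠ a j) :
    counting a x = Pool.Agent.TH876.KR.counting (Pool.Agent.Y557.OE.noS K)
      (fun j => Pool.Agent.Y728.AK.pK (a j)) ![x, 1] := by
  rw [← Pool.Agent.Y728.AK.cntK_eq ∅ a hx]
  unfold counting Pool.Agent.Y728.AK.cntK Pool.Agent.Y728.AK.NearK
  refine finsum_congr fun v => ?_
  by_cases h : ∃ j,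
      v.valuation K (x - a j) < max (v.valuation K (a j)) 1 * max (v.valuation K x) 1
  · exact (if_pos h).trans (if_pos ⟨Finset.notMem_empty v, h⟩).symm
  · exact (if_neg h).trans (if_neg fun h' => h h'.2).symm

theorem form_iff {K : Type} [Field K] {a x : K} :
    Pool.Agent.TH876.KR.form (Pool.Agent.Y728.AK.pK a) ![x, 1] ≠ 0 ↔ x ≠ a := by
  have e : Pool.Agent.TH876.KR.form (Pool.Agent.Y728.AK.pK a) ![x, 1] = a - x := by
    show a * 1 - 1 * x = a - x
    ring
  rw [e, sub_ne_zero]
  exact ne_comm

theorem tuples_eq {K : Type} [Field K] [NumberField K] {m q : ℕ} (a : Fin q → K) (X : ℝ) :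
    Tuples m a X = Pool.Agent.Y728.MN.TupG (Pool.Agent.Y557.OE.noS K)
      (fun j => Pool.Agent.Y728.AK.pK (a j)) ∅ X := by
  ext x
  constructor
  · intro h
    refine ⟨fun i => ⟨fun j => form_iff.2 ((h i).1 j), ?_⟩, fun p hp =>
      absurd hp (Finset.notMem_empty p)⟩
    rw [← counting_eq a (h i).1]
    exact (h i).2
  · rintro ⟨h, -⟩ i
    have h3 : ∀ j, x i ≠ a j := fun j => form_iff.1 ((h i).1 j)
    refine ⟨h3, ?_⟩
    rw [counting_eq a h3]
    exact (h i).2

open Classical in
theorem truncated_eq {K k : Type} [Field K] [NumberField K] [Field k] [NumberField k] {m q : ℕ}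
    {A : Fin m → Type} [∀ i, CommRing (A i)] [∀ i, Algebra k (A i)] [∀ i, Algebra k[X] (A i)]
    (S : Finset (HeightOneSpectrum (𝓞 k))) (a : Fin q → K) (u : Fin m → Fin q → ℕ)
    (y : ∀ i j, Fin (u i j) → A i) (G : Finset (Fin m × Fin m)) {L : Type} [Field L]
    [NumberField L] [Algebra K L] [Algebra k L] (φ : ∀ i, A i →ₐ[k] L) :
    truncated S a u y G φ = Pool.Agent.Y557.OE.trnU S a u y G φ / Module.finrank ℚ L := by
  unfold truncated Pool.Agent.Y557.OE.trnU
  congr 1
  refine finsum_congr fun w => ?_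
  by_cases h : (∀ p ∈ S, w.asIdeal.comap (algebraMap (𝓞 k) (𝓞 L)) ≠ p.asIdeal) ∧
      MeetsAt a u y G φ w
  · exact (if_pos h).trans (if_pos h).symm
  · exact (if_neg h).trans (if_neg h).symm

/-- **The truncated Vojta inequality with discriminant term, one exceptional set for all curves over
all number fields, all divisors and all products, points of all heights.** Let `K` be a number field,
`a_1, …, a_q` distinct elements of `K`, `q ≥ 3`, and `m ≥ 1`.

(1) The number of the tuples `x = (x_1, …, x_m)` of elements of `K`, of whatever height, for which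
all `x_i` have truncated counting function `≤ log X` with respect to `[a_1] + … + [a_q]` is
`X ^ (2 m / q + o(1))`.

(2) For every `κ > 0` there is a set `E ⊆ K ^ m` such that at most `C X ^ (2 m / q - ν)` of these
tuples, for large `X` at most `X ^ (-ν)` times their number, are in `E`, and such that the following
holds for all number fields `k` containing `K`. For `i = 1, …, m` let `A_i` be a Dedekind domain,
finite over `k[t]` and containing it (the ring of functions of a smooth affine curve over `k` which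
is finite over the `t`-line), of rank `N_i`, let `D_{i j}` be the closed subset
`y_{i j 1} = ⋯ = y_{i j u_{i j}} = 0` and `F_{i j} ≠ 0` an ideal of `A_i` such that `D_{i j}` and the
zeros of `F_{i j}` together contain the fibre over `a_j`. Let `G` be a set of pairs `(i, l)` with
`i < l`, and let `S` be a finite set of primes of `k`. Then there is a constant `c` such that for
all tuples `x` of elements of `K`, different from the `a_j`, which are not in `E`, all points `P` of
the product of the curves with `t_i(P) = x_i` for all `i` and all number fields `L ⊇ k` over which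
`P` is defined satisfy
`∑_i (q - (∑_j dim (A_i / F_{i j})) / N_i - κ) h(x_i) + ∑_{(i, l) ∈ G} (h(x_i) + h(x_l))`
`≤ N_S^{(1)}(D, P) + d(L) + c`, where `D` consists of the `D_{i j}` and the divisors `t_i = t_l` for
`(i, l) ∈ G`. -/
theorem result (K : Type) [Field K] [NumberField K] (q : ℕ) (hq : 3 ≤ q) (a : Fin q → K)
    (ha : Function.Injective a) (m : ℕ) (hm : 0 < m) :
    (∀ δ : ℝ, 0 < δ →
      (∃ C : ℝ, ∀ X : ℝ, 1 ≤ X → (Tuples m a X).Finite ∧
        ((Tuples m a X).ncard : ℝ) ≤ C * X ^ (2 * m / (q : ℝ) + δ)) ∧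
      ∃ X₀ : ℝ, ∀ X : ℝ, X₀ ≤ X →
        X ^ (2 * m / (q : ℝ) - δ) ≤ ((Tuples m a X).ncard : ℝ)) ∧
    ∀ κ : ℝ, 0 < κ → ∃ E : Set (Fin m → K),
      (∃ ν C : ℝ, 0 < ν ∧ 0 < C ∧ ∀ X : ℝ, 1 ≤ X →
        ((E ∩ Tuples m a X).ncard : ℝ) ≤ C * X ^ (2 * m / (q : ℝ) - ν)) ∧
      (∃ ν X₀ : ℝ, 0 < ν ∧ ∀ X : ℝ, X₀ ≤ X →
        ((E ∩ Tuples m a X).ncard : ℝ) ≤ X ^ (-ν) * ((Tuples m a X).ncard : ℝ)) ∧
      ∀ (k : Type) [Field k] [NumberField k] [Algebra K k] (A : Fin m → Type)
        [∀ i, CommRing (A i)] [∀ i, IsDedekindDomain (A i)] [∀ i, Algebra k (A i)]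
        [∀ i, Algebra k[X] (A i)] [∀ i, IsScalarTower k k[X] (A i)]
        [∀ i, Module.Finite k[X] (A i)] [∀ i, FaithfulSMul k[X] (A i)]
        (u : Fin m → Fin q → ℕ) (y : ∀ i j, Fin (u i j) → A i) (F : ∀ i, Fin q → Ideal (A i)),
        (∀ i j, F i j ≠ ⊥) →
        (∀ i j l, ∀ e ∈ F i j, y i j l * e ∈
          (Ideal.span {coord k (A i) - algebraMap k (A i) (algebraMap K k (a j))}).radical) →
        ∀ G : Finset (Fin m × Fin m), (∀ p ∈ G, p.1 < p.2) →
        ∀ S : Finset (HeightOneSpectrum (𝓞 k)), ∃ c : ℝ,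
          ∀ x : Fin m → K, x ∉ E → (∀ i j, x i ≠ a j) →
          ∀ (L : Type) [Field L] [NumberField L] [Algebra K L] [Algebra k L]
            [IsScalarTower K k L] (φ : ∀ i, A i →ₐ[k] L),
            (∀ i, φ i (coord k (A i)) = algebraMap K L (x i)) →
            ∑ i, (degree k (F i) - κ) * height (x i) +
                ∑ p ∈ G, (height (x p.1) + height (x p.2)) ≤
              truncated S a u y G φ + logDisc L + c := by
  classical
  have hS : (Pool.Agent.Y557.OE.noS K).Finite := Finset.finite_toSet _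
  have ha' : ∀ i j, i ≠ j → Pool.Agent.TH876.KR.form
      ((fun j => Pool.Agent.Y728.AK.pK (a j)) i) ((fun j => Pool.Agent.Y728.AK.pK (a j)) j) ≠ 0 :=
    fun i j hij => Pool.Agent.Y728.AK.formK_ne' fun h => hij (ha h)
  have hlow : ∀ δ : ℝ, 0 < δ → ∃ X₀ : ℝ, 1 ≤ X₀ ∧ ∀ X : ℝ, X₀ ≤ X →
      X ^ (2 * m / (q : ℝ) - δ) ≤ ((Tuples m a X).ncard : ℝ) := by
    intro δ hδ
    simp only [tuples_eq]
    exact Pool.Agent.Y728.MN.tup_low hq hm hS ha'
      (fun p hp => absurd hp (Finset.notMem_empty p)) δ hδ
  refine ⟨fun δ hδ => ⟨?_, ?_⟩, fun κ hκ => ?_⟩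
  · simp only [tuples_eq]
    exact Pool.Agent.Y728.MN.tup_all hq hm hS ha' ∅ δ hδ
  · obtain ⟨X0, -, h⟩ := hlow δ hδ
    exact ⟨X0, h⟩
  obtain ⟨E, hupp, hE⟩ := Pool.Agent.Y557.OE.one_exc K hm hq a ha (κ := κ / 2) (by positivity)
  have hupp' : ∃ ν C : ℝ, 0 < ν ∧ 0 < C ∧ ∀ X : ℝ, 1 ≤ X →
      ((E ∩ Tuples m a X).ncard : ℝ) ≤ C * X ^ (2 * m / (q : ℝ) - ν) := by
    simp only [tuples_eq]
    exact hupp
  refine ⟨E, hupp', ?_, ?_⟩
  · obtain ⟨ν, C, hν, hC, h1⟩ := hupp'
    obtain ⟨X0, hX0, h2⟩ := hlow (ν / 2) (by positivity)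
    exact ⟨ν / 4, _, by positivity, Pool.Agent.Y728.AK.ratio_of hν hC hX0 h1 h2⟩
  intro k _ _ _ A _ _ _ _ _ _ _ u y F hF hyF G hG S
  obtain ⟨c, hc⟩ := Pool.Agent.Y557.OE.coreU hq a u y F hF hyF hG S hκ
  obtain ⟨d, hd⟩ : ∃ d : ℝ, d = (Module.finrank ℚ K : ℝ) := ⟨_, rfl⟩
  have hd0 : 0 < d := by rw [hd]; exact_mod_cast Module.finrank_pos
  refine ⟨c / d, ?_⟩
  intro x hxE hxa L _ _ _ _ _ φ hφ
  obtain ⟨hinj, hnn⟩ := hE x hxE hxa
  have h1 := hc x hxa hinj hnn L φ hφ
  have hfd : FiniteDimensional K L := Module.Finite.of_restrictScalars_finite ℚ K L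
  obtain ⟨mL, hmL⟩ : ∃ mL : ℝ, mL = (Module.finrank K L : ℝ) := ⟨_, rfl⟩
  have hm0 : 0 < mL := by rw [hmL]; exact_mod_cast Module.finrank_pos
  have htow : (Module.finrank ℚ L : ℝ) = d * mL := by
    rw [hd, hmL]
    exact_mod_cast (Module.finrank_mul_finrank ℚ K L).symm
  obtain ⟨lL, hlL⟩ : ∃ lL : ℝ, lL = Real.log |(NumberField.discr L : ℝ)| := ⟨_, rfl⟩
  obtain ⟨N0, hN0⟩ : ∃ N0 : ℝ, N0 = Pool.Agent.Y557.OE.trnU S a u y G φ := ⟨_, rfl⟩
  obtain ⟨R, hR⟩ : ∃ R : ℝ, R = ∑ i, ((q : ℝ) - (∑ j, (Module.finrank k (A i ⧸ F i j) : ℝ)) /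
      Module.finrank k[X] (A i) - κ) * Height.logHeight₁ (x i) +
        ∑ p ∈ G, (Height.logHeight₁ (x p.1) + Height.logHeight₁ (x p.2)) := ⟨_, rfl⟩
  rw [← hR, ← hmL, ← hlL, ← hN0] at h1
  have e1 : ∑ i, (degree k (F i) - κ) * height (x i) +
      ∑ p ∈ G, (height (x p.1) + height (x p.2)) = R / d := by
    rw [hR, add_div, Finset.sum_div, Finset.sum_div]
    congr 1
    · refine Finset.sum_congr rfl fun i _ => ?_
      unfold degree height
      rw [← hd]
      ring
    · refine Finset.sum_congr rfl fun p _ => ?_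
      unfold height
      rw [← hd]
      ring
  rw [e1, truncated_eq, ← hN0]
  unfold logDisc
  rw [← hlL, htow]
  have h2 : R ≤ (lL + N0 + mL * c) / mL := by
    rw [le_div_iff₀ hm0]
    linarith
  have h3 : R / d ≤ (lL + N0 + mL * c) / mL / d := div_le_div_of_nonneg_right h2 hd0.le
  refine h3.trans (le_of_eq ?_)
  field_simp
  ring

end Pool.Agent.Results.MP_44a246_nt.OneExceptionalSet
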