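import Mathlib
import Pool.Agent.Y731.FG.Fin5

set_option autoImplicit false

/-!
# MP_44a246_nt: the truncated inequality of Vojta over function fields, for all smooth projective
# varieties, all strict normal crossings divisors and all algebraic points with sparse coordinates

`F` is a function field of one variable over an algebraically closed field `k` of characteristic
zero, `X` a smooth projective variety of dimension `N` over `F` in `ℙ^(N + s)` with the equations
`G j = 0` (any number of them), `D = D_1 + ⋯ + D_q` a divisor of `X` with strict normal crossings,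
`D_i` the subvariety of `X` with the equations `E i j = 0`, `j < w`, `E i j` of degree `d i j` (not
necessarily a hypersurface section). Neither `X` nor `D` is assumed to be defined over `k`.

The points `x` are those of all finite extensions `L` of `F`, of unbounded degree. Every coordinate
of `x` is written as a sum of `m` elements `t c j` of `L`; the error term contains the number of the
places of `L` at which not all nonzero `t c j` have the same order. (For instance, if the `t c j` are
products of `S`-units and a common factor, these are places over `S`.)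

The inequality is that of the conjecture: `h_K(x) + h_D(x)` is at most the truncated counting
function `N^(1)_S(D, x)`, in which each place counts once, plus `ε h(x)` plus a constant times the sum
of the degree of `L`, the logarithmic discriminant of `L` and the number of the places described
above.

All heights are those of `L`, that is, `[L : F]` times the heights of the conjecture.
-/

namespace Pool.Agent.Results.MP_44a246_nt.SparseTruncated

open MvPolynomial FF Pool.Agent.W603.PV

section defs

variable {k F L : Type} [Field k] [Field F] [Field L] [Algebra k L] [Algebra F L]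

/-- the minimum of the orders of the nonzero entries of `x` at the place `P` -/
noncomputable def minOrd {ι : Type} (P : Place k L) (x : ι → L) : ℤ :=
  ⨅ c : {c // x c ≠ 0}, P.ord (x c.1)

variable (k) in
/-- The height of the point with the homogeneous coordinates `x`: minus the sum over all places of
the minimum of the orders of the coordinates. -/
noncomputable def height {ι : Type} (x : ι → L) : ℤ := -∑ᶠ P : Place k L, minOrd P x

/-- `x` is a point of the variety `X`. -/
def OnX {n g : ℕ} (G : Fin g → MvPolynomial (Fin n) F) (x : Fin n → L) : Prop :=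
  ∀ j, aeval x (G j) = 0

/-- The local height at `P` with respect to the subvariety with the equations `E j = 0`, `E j` of
degree `d j`: the minimum of the orders of `E j (x) / x_c ^ d j`, `x_c` a coordinate of minimal
order. -/
noncomputable def localHeight {n w : ℕ} (E : Fin w → MvPolynomial (Fin n) F) (d : Fin w → ℕ)
    (P : Place k L) (x : Fin n → L) : ℤ :=
  ⨅ j : {j // aeval x (E j) ≠ 0}, (P.ord (aeval x (E j.1)) - d j.1 * minOrd P x)

variable (k) in
/-- The height `h_D(x)` for `D = D_1 + ⋯ + D_q`, `D_i` with the equations `E i j = 0`: the sum of all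
local heights. -/
noncomputable def divisorHeight {n q w : ℕ} (E : Fin q → Fin w → MvPolynomial (Fin n) F)
    (d : Fin q → Fin w → ℕ) (x : Fin n → L) : ℤ :=
  ∑ i, ∑ᶠ P : Place k L, localHeight (E i) (d i) P x

/-- The truncated counting function `N^(1)_S(D, x)`: the number of the places of `L`, not over a place
in `S`, at which the local height of `x` with respect to some `D_i` is positive. -/
noncomputable def truncatedCounting [Algebra k F] [IsScalarTower k F L] [IsAlgClosed k]
    [CharZero k] [IsFF k F] [IsFF k L] {n q w : ℕ} (E : Fin q → Fin w → MvPolynomial (Fin n) F)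
    (d : Fin q → Fin w → ℕ) (S : Finset (Place k F)) (x : Fin n → L) : ℕ :=
  {P : Place k L | under F P ∉ S ∧ ∃ i, 0 < localHeight (E i) (d i) P x}.ncard

/-- The columns of `A` are a basis of the tangent space of the affine cone over `X` at `x` (the
vectors orthogonal to all gradients of equations), `X` being smooth of dimension `N` at `x`. -/
def IsTangentBasis {n N g : ℕ} (G : Fin g → MvPolynomial (Fin n) F) (x : Fin n → L)
    (A : Matrix (Fin n) (Fin (N + 1)) L) : Prop :=
  LinearIndependent L (fun c : Fin (N + 1) => fun j : Fin n => A j c) ∧
    ∀ j c, ∑ a, aeval x (pderiv a (G j)) * A a c = 0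

variable (k) in
/-- The height `h_K(x)` for the canonical class `K` of `X`. The Gauss map `γ` sends a point of `X` to
its embedded tangent space, `γ^* O(1) = K + (N + 1) H` for the hyperplane class `H`, and `h_K(x)` is
the height of `γ(x)` (of the vector of the Pluecker coordinates, the maximal minors of `A`) minus
`(N + 1) h(x)`. -/
noncomputable def canonicalHeight {n N : ℕ} (x : Fin n → L) (A : Matrix (Fin n) (Fin (N + 1)) L) :
    ℤ :=
  height k (fun J : Fin (N + 1) → Fin n => (A.submatrix J id).det) - (N + 1) * height k x

variable (k) in
/-- The places of `L` at which not all nonzero `t c j` have the same order. -/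
def unequal {n m : ℕ} (t : Fin n → Fin m → L) : Set (Place k L) :=
  {P | ∃ c j c' j', t c j ≠ 0 ∧ t c' j' ≠ 0 ∧ P.ord (t c j) ≠ P.ord (t c' j')}

end defs

/-- The dimension of `X` is at least `N`: some `N + 1` coordinates are algebraically independent on
the cone over `X`. -/
def DimGE {F : Type} [Field F] {n g : ℕ} (N : ℕ) (G : Fin g → MvPolynomial (Fin n) F) : Prop :=
  ∃ J : Fin (N + 1) → Fin n, ∀ P : MvPolynomial (Fin (N + 1)) F,
    (∀ z : Fin n → AlgebraicClosure F, OnX G z → aeval (fun i => z (J i)) P = 0) → P = 0

/-- `X` is smooth of codimension `s` and `D` has strict normal crossings on `X`: at each point `z` of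
`X` over an algebraic closure of `F`, for suitable `s` equations of `X` and one equation of each
component of `D` through `z` all gradients at `z` are linearly independent. -/
def SmoothPair {F : Type} [Field F] {n g q w : ℕ} (s : ℕ) (G : Fin g → MvPolynomial (Fin n) F)
    (E : Fin q → Fin w → MvPolynomial (Fin n) F) : Prop :=
  ∀ z : Fin n → AlgebraicClosure F, z ≠ 0 → OnX G z →
    ∃ (T : Fin s → Fin g) (J : Fin q → Fin w), LinearIndependent (AlgebraicClosure F)
      (Sum.elim
        (fun a : Fin s => fun c : Fin n => aeval z (pderiv c (G (T a))))
        (fun i : {i : Fin q // ∀ j, aeval z (E i j) = 0} => fun c : Fin n =>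
          aeval z (pderiv c (E i.1 (J i.1)))))

/-- **Main theorem.** Let `F` be a function field of one variable over an algebraically closed field
`k` of characteristic zero, `X` a smooth projective variety of dimension `N` over `F` in `ℙ^(N + s)`
and `D = D_1 + ⋯ + D_q` a divisor of `X` with strict normal crossings, `S` a finite set of places of
`F`, `m` a number and `ε > 0`. There are a form `Φ` over `F` that does not vanish on `X` and a
constant `C` such that for all finite extensions `L` of `F` and all points `x` of `X` over `L`, off
`D` and off `Φ = 0`, and all representations of the coordinates of `x` as sums of `m` elements `t c j`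
of `L` the truncated inequality of Vojta
`h_K(x) + h_D(x) ≤ N^(1)_S(D, x) + ε h(x) + C ([L : F] + disc(L / F) + n(t))` holds, where `n(t)` is
the number of the places of `L` at which not all nonzero `t c j` have the same order. -/
theorem result {k F : Type} [Field k] [IsAlgClosed k] [CharZero k] [Field F] [Algebra k F]
    [IsFF k F] (N s g q w m : ℕ) (G : Fin g → MvPolynomial (Fin (N + 1 + s)) F) (e : Fin g → ℕ)
    (hG : ∀ j, (G j).IsHomogeneous (e j))
    (E : Fin q → Fin w → MvPolynomial (Fin (N + 1 + s)) F) (d : Fin q → Fin w → ℕ)
    (hE : ∀ i j, (E i j).IsHomogeneous (d i j)) (hdim : DimGE N G) (hsm : SmoothPair s G E)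
    (S : Finset (Place k F)) (ε : ℝ) (hε : 0 < ε) :
    ∃ (Φ : MvPolynomial (Fin (N + 1 + s)) F) (n : ℕ) (C : ℝ), Φ.IsHomogeneous n ∧
      (∃ z : Fin (N + 1 + s) → AlgebraicClosure F, OnX G z ∧ aeval z Φ ≠ 0) ∧
      ∀ (L : Type) [Field L] [Algebra k L] [Algebra F L] [IsScalarTower k F L]
        [FiniteDimensional F L] [IsFF k L] (x : Fin (N + 1 + s) → L)
        (t : Fin (N + 1 + s) → Fin m → L), x ≠ 0 → OnX G x → (∀ i, ∃ j, aeval x (E i j) ≠ 0) →
        aeval x Φ ≠ 0 → (∀ c, x c = ∑ j, t c j) →
        ∀ A : Matrix (Fin (N + 1 + s)) (Fin (N + 1)) L, IsTangentBasis G x A →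
          (canonicalHeight k x A : ℝ) + divisorHeight k E d x ≤
            truncatedCounting E d S x + ε * height k x +
              C * (Module.finrank F L + disc k F L + (unequal k t).ncard) := by
  classical
  obtain ⟨J, hJ⟩ := hdim
  obtain ⟨Φ, C, ⟨n, hn⟩, hΦ0, hmain⟩ := Pool.Agent.Y731.FG.fgMain (k := k) m G e hG E d hE
    (fun z hz hzG => by
      obtain ⟨T, J', h⟩ := hsm z hz hzG
      exact ⟨T, J', h⟩) J ε hε
  set c0 : ℤ := ∑ v ∈ S, Pool.Agent.W603.LV.hgt k (Pool.Agent.W603.LV.unif v) with hc0
  have hc0' : 0 ≤ c0 := Finset.sum_nonneg fun v _ => Pool.Agent.W603.LV.hgt_nonneg _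
  refine ⟨rename J Φ, n, C + c0, hn.rename_isHomogeneous, ?_, ?_⟩
  · by_contra hcon
    push Not at hcon
    apply hΦ0
    apply hJ
    intro z hz
    have := hcon z hz
    rw [aeval_rename] at this
    exact this
  · intro L _ _ _ _ _ _ x t hx hX hEx hΦ hxt A hA
    rw [aeval_rename] at hΦ
    have h1 := hmain L x t A hX hEx hxt hΦ hA.1 hA.2
    have h2 : ((canonicalHeight k x A : ℤ) : ℝ) + divisorHeight k E d x ≤
        ({P : Place k L | ∃ i, 0 < localHeight (E i) (d i) P x}.ncard : ℝ) + ε * height k x +
          C * (Module.finrank F L + disc k F L + (unequal k t).ncard) := by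
      have h3 : ((canonicalHeight k x A : ℤ) : ℝ) + divisorHeight k E d x =
          ((canonicalHeight k x A + divisorHeight k E d x : ℤ) : ℝ) := by push_cast; rfl
      rw [h3]
      exact h1
    -- the places over `S`
    have h4 : {P : Place k L | ∃ i, 0 < localHeight (E i) (d i) P x} ⊆
        {P : Place k L | under F P ∉ S ∧ ∃ i, 0 < localHeight (E i) (d i) P x} ∪
          {P : Place k L | under F P ∈ S} := by
      intro P hP
      by_cases h : under F P ∈ S
      · exact Or.inr h
      · exact Or.inl ⟨h, hP⟩
    have hx0 : ∃ c, x c ≠ 0 := by
      by_contra hno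
      push Not at hno
      exact hx (funext hno)
    have hfin : {P : Place k L | ∃ i, 0 < localHeight (E i) (d i) P x}.Finite := by
      have h5 : (⋃ i : Fin q, {P : Place k L | localHeight (E i) (d i) P x ≠ 0}).Finite :=
        Set.finite_iUnion fun i => Pool.Agent.Y731.FG.locH_finite hx0 (hEx i)
      refine h5.subset ?_
      rintro P ⟨i, hi⟩
      exact Set.mem_iUnion.2 ⟨i, hi.ne'⟩
    have hfin2 : {P : Place k L | under F P ∈ S}.Finite := finite_over_set (Finset.finite_toSet S)
    have h6 : {P : Place k L | ∃ i, 0 < localHeight (E i) (d i) P x}.ncard ≤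
        truncatedCounting E d S x + {P : Place k L | under F P ∈ S}.ncard := by
      refine (Set.ncard_le_ncard h4 ((hfin.subset fun P hP => hP.2).union hfin2)).trans ?_
      exact Set.ncard_union_le _ _
    have h7 : (({P : Place k L | under F P ∈ S}.ncard : ℕ) : ℤ) ≤ Module.finrank F L * c0 :=
      card_over_le S
    have h8 : ({P : Place k L | ∃ i, 0 < localHeight (E i) (d i) P x}.ncard : ℝ) ≤
        truncatedCounting E d S x + Module.finrank F L * c0 := by
      have h9 : ({P : Place k L | ∃ i, 0 < localHeight (E i) (d i) P x}.ncard : ℝ) ≤
          truncatedCounting E d S x + ({P : Place k L | under F P ∈ S}.ncard : ℝ) := by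
        exact_mod_cast h6
      have h10 : ({P : Place k L | under F P ∈ S}.ncard : ℝ) ≤ Module.finrank F L * c0 := by
        exact_mod_cast h7
      linarith
    have h11 : (0 : ℝ) ≤ disc k F L := by
      exact_mod_cast Pool.Agent.Y731.FG.disc_nonneg (k := k) (F := F) (L := L)
    have h12 : (0 : ℝ) ≤ (unequal k t).ncard := by positivity
    have h13 : (0 : ℝ) ≤ c0 := by exact_mod_cast hc0'
    have h14 : (C + c0 : ℝ) * (Module.finrank F L + disc k F L + (unequal k t).ncard) =
        C * (Module.finrank F L + disc k F L + (unequal k t).ncard) + Module.finrank F L * c0 +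
          c0 * (disc k F L + (unequal k t).ncard) := by ring
    have h15 : (0 : ℝ) ≤ c0 * (disc k F L + (unequal k t).ncard) := by positivity
    rw [h14]
    linarith

end Pool.Agent.Results.MP_44a246_nt.SparseTruncated
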